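import Mathlib

open Finset

namespace Pool.Agent.Results.MP_eb6a62_co.CliqueTransversal

/-- The number of members of `𝒜` contained in `S`. -/
def cnt {α : Type} [DecidableEq α] (𝒜 : Finset (Finset α)) (S : Finset α) : ℕ :=
  (𝒜.filter (fun A => A ⊆ S)).card

/-- The probability that the random subset of `B`, keeping each element independently with
probability `p`, contains exactly `l` members of `𝒜`. -/
noncomputable def prob {α : Type} [DecidableEq α] (B : Finset α) (𝒜 : Finset (Finset α))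
    (l : ℕ) (p : ℝ) : ℝ :=
  ∑ S ∈ B.powerset.filter (fun S => cnt 𝒜 S = l), p ^ S.card * (1 - p) ^ (B.card - S.card)

/-- The probability that a binomial random variable with parameters `m`, `p` equals `2`. -/
noncomputable def binTwo (m : ℕ) (p : ℝ) : ℝ := (m.choose 2 : ℝ) * p ^ 2 * (1 - p) ^ (m - 2)

/-! ### The LYM inequality inside a finite set -/

lemma lym {α : Type} [DecidableEq α] (U : Finset α) (𝒴 : Finset (Finset α))
    (hU : ∀ Y ∈ 𝒴, Y ⊆ U) (hanti : ∀ Y ∈ 𝒴, ∀ Z ∈ 𝒴, Y ⊆ Z → Y = Z) :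
    ∑ Y ∈ 𝒴, ((U.card.choose Y.card : ℝ))⁻¹ ≤ 1 := by
  classical
  have hmap : ∀ Y ∈ 𝒴, (Y.subtype (· ∈ U)).map (Function.Embedding.subtype _) = Y := by
    intro Y hY
    exact Finset.subtype_map_of_mem (fun x hx => hU Y hY hx)
  have hinj : Set.InjOn (fun Y : Finset α => Y.subtype (· ∈ U)) (𝒴 : Set (Finset α)) := by
    intro Y hY Z hZ h
    have h' : Y.subtype (· ∈ U) = Z.subtype (· ∈ U) := h
    rw [← hmap Y hY, ← hmap Z hZ, h']
  have hcard : ∀ Y ∈ 𝒴, (Y.subtype (· ∈ U)).card = Y.card := by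
    intro Y hY
    conv_rhs => rw [← hmap Y hY]
    rw [Finset.card_map]
  have key := Finset.lubell_yamamoto_meshalkin_inequality_sum_inv_choose (𝕜 := ℝ)
    (𝒜 := 𝒴.image (fun Y : Finset α => Y.subtype (· ∈ U))) (by
      intro Y hY Z hZ hne hsub
      simp only [Finset.coe_image, Set.mem_image, Finset.mem_coe] at hY hZ
      obtain ⟨Y', hY', rfl⟩ := hY
      obtain ⟨Z', hZ', rfl⟩ := hZ
      apply hne
      have : Y' ⊆ Z' := by
        rw [← hmap Y' hY', ← hmap Z' hZ']
        exact Finset.map_subset_map.mpr hsub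
      rw [hanti Y' hY' Z' hZ' this])
  rw [Finset.sum_image hinj] at key
  calc ∑ Y ∈ 𝒴, ((U.card.choose Y.card : ℝ))⁻¹
      = ∑ Y ∈ 𝒴, (((Fintype.card U).choose (Y.subtype (· ∈ U)).card : ℝ))⁻¹ := by
        refine Finset.sum_congr rfl (fun Y hY => ?_)
        rw [hcard Y hY, Fintype.card_coe]
    _ ≤ 1 := key

/-- Probability that a binomial random variable with parameters `n`, `p` equals `j`. -/
noncomputable def bn (p : ℝ) (n j : ℕ) : ℝ := (n.choose j : ℝ) * p ^ j * (1 - p) ^ (n - j)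

lemma lym_weighted {α : Type} [DecidableEq α] (U : Finset α) (𝒴 : Finset (Finset α))
    (hU : ∀ Y ∈ 𝒴, Y ⊆ U) (hanti : ∀ Y ∈ 𝒴, ∀ Z ∈ 𝒴, Y ⊆ Z → Y = Z) (hemp : ∅ ∉ 𝒴)
    (p M : ℝ) (hM : 0 ≤ M) (hb : ∀ j, 1 ≤ j → j ≤ U.card → bn p U.card j ≤ M) :
    ∑ Y ∈ 𝒴, p ^ Y.card * (1 - p) ^ (U.card - Y.card) ≤ M := by
  have h1 : ∀ Y ∈ 𝒴, p ^ Y.card * (1 - p) ^ (U.card - Y.card)
      ≤ M * ((U.card.choose Y.card : ℝ))⁻¹ := by
    intro Y hY
    have hle : Y.card ≤ U.card := Finset.card_le_card (hU Y hY)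
    have hpos : (0 : ℝ) < (U.card.choose Y.card : ℝ) := by
      exact_mod_cast Nat.choose_pos hle
    have h1 : 1 ≤ Y.card := by
      rw [Nat.one_le_iff_ne_zero]
      intro h0
      rw [Finset.card_eq_zero] at h0
      exact hemp (h0 ▸ hY)
    have := hb Y.card h1 hle
    unfold bn at this
    rw [← div_eq_mul_inv, le_div_iff₀ hpos]
    linarith [this]
  calc ∑ Y ∈ 𝒴, p ^ Y.card * (1 - p) ^ (U.card - Y.card)
      ≤ ∑ Y ∈ 𝒴, M * ((U.card.choose Y.card : ℝ))⁻¹ := Finset.sum_le_sum h1
    _ = M * ∑ Y ∈ 𝒴, ((U.card.choose Y.card : ℝ))⁻¹ := by rw [Finset.mul_sum]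
    _ ≤ M * 1 := mul_le_mul_of_nonneg_left (lym U 𝒴 hU hanti) hM
    _ = M := mul_one M

/-! ### Facts on binomial probabilities -/

lemma bn_nonneg {p : ℝ} (hp0 : 0 < p) (hp1 : p < 1) (n j : ℕ) : 0 ≤ bn p n j := by
  unfold bn
  have : (0 : ℝ) ≤ 1 - p := by linarith
  positivity

lemma bn_succ (p : ℝ) (n j : ℕ) :
    bn p (n + 1) (j + 1) = p * bn p n j + (1 - p) * bn p n (j + 1) := by
  unfold bn
  rw [Nat.choose_succ_succ, Nat.add_sub_add_right]
  rcases Nat.lt_or_ge n (j + 1) with h | h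
  · rw [Nat.choose_eq_zero_of_lt h]
    push_cast
    ring
  · obtain ⟨d, rfl⟩ := Nat.exists_eq_add_of_le h
    have e1 : j + 1 + d - j = d + 1 := by omega
    have e2 : j + 1 + d - (j + 1) = d := by omega
    rw [e1, e2]
    push_cast
    ring

/-- The ratio of two consecutive binomial probabilities. -/
lemma bn_ratio (p : ℝ) (n j : ℕ) (hj : j + 1 ≤ n) :
    bn p n (j + 1) * (((j : ℝ) + 1) * (1 - p)) = bn p n j * (((n : ℝ) - j) * p) := by
  unfold bn
  have h1 := Nat.choose_succ_right_eq n j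
  have h2 : ((n.choose (j + 1) : ℝ)) * ((j : ℝ) + 1) = (n.choose j : ℝ) * ((n : ℝ) - j) := by
    have := congrArg (fun z : ℕ => (z : ℝ)) h1
    push_cast [Nat.cast_sub (show j ≤ n by omega)] at this
    linarith [this]
  obtain ⟨d, rfl⟩ := Nat.exists_eq_add_of_le hj
  have e1 : j + 1 + d - j = d + 1 := by omega
  have e2 : j + 1 + d - (j + 1) = d := by omega
  rw [e1, e2]
  calc ((j + 1 + d).choose (j + 1) : ℝ) * p ^ (j + 1) * (1 - p) ^ d * (((j : ℝ) + 1) * (1 - p))
      = (((j + 1 + d).choose (j + 1) : ℝ) * ((j : ℝ) + 1)) * (p ^ (j + 1) * (1 - p) ^ (d + 1)) := by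
        ring
    _ = ((j + 1 + d).choose j : ℝ) * p ^ j * (1 - p) ^ (d + 1) *
          ((((j + 1 + d : ℕ) : ℝ) - j) * p) := by
        rw [h2]
        ring

lemma bn_big {p : ℝ} (hp0 : 0 < p) (hp1 : p < 1) (C : ℝ) (hC : ∀ m, bn p m 2 ≤ C) :
    ∀ n j, 2 ≤ j → bn p n j ≤ C := by
  have hC0 : 0 ≤ C := by
    have := hC 0
    simpa [bn] using this
  intro n
  induction n with
  | zero =>
    intro j hj
    have : bn p 0 j = 0 := by
      unfold bn
      rw [Nat.choose_eq_zero_of_lt (by omega)]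
      simp
    rw [this]
    exact hC0
  | succ n ih =>
    intro j hj
    rcases Nat.lt_or_ge 2 j with h | h
    · obtain ⟨i, rfl⟩ : ∃ i, j = i + 1 := ⟨j - 1, by omega⟩
      rw [bn_succ]
      have a1 := ih i (by omega)
      have a2 := ih (i + 1) (by omega)
      nlinarith [a1, a2]
    · have : j = 2 := by omega
      rw [this]
      exact hC (n + 1)

/-- If `(n - 1) p ≤ 2 (1 - p)` then the value `1` is the most likely nonzero value. -/
lemma bn_caseA {p : ℝ} (hp0 : 0 < p) (hp1 : p < 1) (n : ℕ)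
    (hA : ((n : ℝ) - 1) * p ≤ 2 * (1 - p)) : ∀ j, 1 ≤ j → bn p n j ≤ bn p n 1 := by
  intro j hj
  induction j, hj using Nat.le_induction with
  | base => exact le_rfl
  | succ j hj ih =>
    refine le_trans ?_ ih
    rcases Nat.lt_or_ge n (j + 1) with h | h
    · have : bn p n (j + 1) = 0 := by
        unfold bn
        rw [Nat.choose_eq_zero_of_lt h]
        simp
      rw [this]
      exact bn_nonneg hp0 hp1 n j
    · have hr := bn_ratio p n j h
      have hj' : (1 : ℝ) ≤ (j : ℝ) := by exact_mod_cast hj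
      have hpos : 0 < ((j : ℝ) + 1) * (1 - p) := by
        apply mul_pos <;> linarith
      have hle : ((n : ℝ) - j) * p ≤ ((j : ℝ) + 1) * (1 - p) := by nlinarith
      have hnn := bn_nonneg hp0 hp1 n j
      have : bn p n (j + 1) * (((j : ℝ) + 1) * (1 - p)) ≤ bn p n j * (((j : ℝ) + 1) * (1 - p)) := by
        rw [hr]
        exact mul_le_mul_of_nonneg_left hle hnn
      exact le_of_mul_le_mul_right this hpos

lemma bn_caseB {p : ℝ} (hp0 : 0 < p) (hp1 : p < 1) (n : ℕ)
    (hB : ¬ ((n : ℝ) - 1) * p ≤ 2 * (1 - p)) : bn p n 1 ≤ bn p n 2 := by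
  push Not at hB
  have hn : 2 ≤ n := by
    by_contra hlt
    have : (n : ℝ) ≤ 1 := by exact_mod_cast (show n ≤ 1 by omega)
    nlinarith
  have hr := bn_ratio p n 1 hn
  norm_num at hr
  have hnn := bn_nonneg hp0 hp1 n 1
  have hpos : (0 : ℝ) < 2 * (1 - p) := by linarith
  have h2 : bn p n 1 * (2 * (1 - p)) ≤ bn p n 2 * (2 * (1 - p)) := by
    have e : bn p n 2 * (2 * (1 - p)) = bn p n 1 * (((n : ℝ) - 1) * p) := by
      linarith [hr]
    rw [e]
    exact mul_le_mul_of_nonneg_left hB.le hnn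
  exact le_of_mul_le_mul_right h2 hpos

open Classical in
/-- Upper bound for all binomial probabilities of nonzero values. -/
noncomputable def mm (p C : ℝ) (n : ℕ) : ℝ :=
  if ((n : ℝ) - 1) * p ≤ 2 * (1 - p) then bn p n 1 else C

/-- The recursive bound. -/
noncomputable def hh (p C : ℝ) : ℕ → ℝ
  | 0 => 0
  | n + 1 => p * mm p C n + (1 - p) * hh p C n

lemma mm_nonneg {p : ℝ} (hp0 : 0 < p) (hp1 : p < 1) (C : ℝ) (hC0 : 0 ≤ C) (n : ℕ) :
    0 ≤ mm p C n := by
  unfold mm
  split_ifs
  · exact bn_nonneg hp0 hp1 n 1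
  · exact hC0

lemma bn_le_mm {p : ℝ} (hp0 : 0 < p) (hp1 : p < 1) (C : ℝ) (hC : ∀ m, bn p m 2 ≤ C) (n j : ℕ)
    (hj : 1 ≤ j) : bn p n j ≤ mm p C n := by
  unfold mm
  split_ifs with h
  · exact bn_caseA hp0 hp1 n h j hj
  · rcases Nat.lt_or_ge 1 j with h1 | h1
    · exact bn_big hp0 hp1 C hC n j h1
    · have : j = 1 := by omega
      rw [this]
      exact (bn_caseB hp0 hp1 n h).trans (hC n)

lemma hh_nonneg {p : ℝ} (hp0 : 0 < p) (hp1 : p < 1) (C : ℝ) (hC0 : 0 ≤ C) (n : ℕ) :
    0 ≤ hh p C n := by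
  induction n with
  | zero => simp [hh]
  | succ n ih =>
    rw [hh]
    have := mm_nonneg hp0 hp1 C hC0 n
    have h1 : 0 ≤ 1 - p := by linarith
    positivity

lemma hh_le {p : ℝ} (hp0 : 0 < p) (hp1 : p < 1) (C : ℝ) (hC : ∀ m, bn p m 2 ≤ C) (n : ℕ) :
    hh p C n ≤ C ∧ (((n : ℝ) - 1) * p ≤ 2 * (1 - p) → hh p C n = bn p n 2) := by
  have hC0 : 0 ≤ C := by
    have := hC 0
    simpa [bn] using this
  induction n with
  | zero =>
    refine ⟨by simpa [hh] using hC0, fun _ => by simp [hh, bn]⟩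
  | succ n ih =>
    have key : (((n : ℝ) - 1) * p ≤ 2 * (1 - p)) → hh p C (n + 1) = bn p (n + 1) 2 := by
      intro hA
      rw [hh, ih.2 hA, mm, if_pos hA, bn_succ]
    refine ⟨?_, ?_⟩
    · by_cases hA : ((n : ℝ) - 1) * p ≤ 2 * (1 - p)
      · rw [key hA]
        exact hC (n + 1)
      · rw [hh, mm, if_neg hA]
        nlinarith [ih.1]
    · intro hA
      apply key
      push_cast at hA
      nlinarith

/-! ### The weighted inequality for antichains -/

lemma antichain_bound {α : Type} [DecidableEq α] {p : ℝ} (hp0 : 0 < p) (hp1 : p < 1) (C : ℝ)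
    (hC : ∀ m, bn p m 2 ≤ C) (k : ℕ) :
    ∀ (U W : Finset α) (𝒴 : Finset (Finset α)), W ⊆ U → W.card = k → (∀ Y ∈ 𝒴, Y ⊆ U) →
      (∀ Y ∈ 𝒴, ∀ Z ∈ 𝒴, Y ⊆ Z → Y = Z) → ∅ ∉ 𝒴 →
      p * (((k : ℝ) + 1) * ∑ Y ∈ 𝒴, p ^ Y.card * (1 - p) ^ (U.card - Y.card) /
        (1 + ((Y ∩ W).card : ℝ))) ≤ hh p C (U.card + 1) := by
  have hC0 : 0 ≤ C := by
    have := hC 0
    simpa [bn] using this
  induction k with
  | zero =>
    intro U W 𝒴 hW hk hU hanti hemp
    rw [Finset.card_eq_zero] at hk
    subst hk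
    have h1 := lym_weighted U 𝒴 hU hanti hemp p (mm p C U.card) (mm_nonneg hp0 hp1 C hC0 _)
      (fun j hj _ => bn_le_mm hp0 hp1 C hC _ j hj)
    have h2 := hh_nonneg hp0 hp1 C hC0 U.card
    rw [hh]
    simp only [Finset.inter_empty, Finset.card_empty, Nat.cast_zero, add_zero, div_one, zero_add,
      one_mul]
    have h3 : 0 ≤ (1 - p) * hh p C U.card := mul_nonneg (by linarith) h2
    have h4 := mul_le_mul_of_nonneg_left h1 hp0.le
    linarith
  | succ k ih =>
    intro U W 𝒴 hW hk hU hanti hemp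
    set s : Finset α → ℝ := fun Y => p ^ Y.card * (1 - p) ^ (U.card - Y.card) with hs
    have h1 := lym_weighted U 𝒴 hU hanti hemp p (mm p C U.card) (mm_nonneg hp0 hp1 C hC0 _)
      (fun j hj _ => bn_le_mm hp0 hp1 C hC _ j hj)
    -- the identity
    have hid : (((k + 1 : ℕ) : ℝ) + 1) * ∑ Y ∈ 𝒴, s Y / (1 + ((Y ∩ W).card : ℝ))
        = ∑ Y ∈ 𝒴, s Y + ∑ w ∈ W, ∑ Y ∈ 𝒴.filter (fun Y => w ∉ Y),
            s Y / (1 + ((Y ∩ W).card : ℝ)) := by
      have hsw : ∑ w ∈ W, ∑ Y ∈ 𝒴.filter (fun Y => w ∉ Y), s Y / (1 + ((Y ∩ W).card : ℝ))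
          = ∑ Y ∈ 𝒴, ((W.filter (fun w => w ∉ Y)).card : ℝ) * (s Y / (1 + ((Y ∩ W).card : ℝ))) := by
        simp_rw [Finset.sum_filter]
        rw [Finset.sum_comm]
        refine Finset.sum_congr rfl (fun Y _ => ?_)
        rw [← Finset.sum_filter, Finset.sum_const, nsmul_eq_mul]
      rw [hsw, Finset.mul_sum, ← Finset.sum_add_distrib]
      refine Finset.sum_congr rfl (fun Y _ => ?_)
      have hc : ((W.filter (fun w => w ∉ Y)).card : ℝ) + ((Y ∩ W).card : ℝ) = (k : ℝ) + 1 := by
        have e1 : W.filter (fun w => w ∉ Y) = W \ Y := by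
          ext a
          simp [Finset.mem_sdiff]
        have e2 : (W \ Y).card + (W ∩ Y).card = W.card := Finset.card_sdiff_add_card_inter W Y
        rw [e1, Finset.inter_comm Y W]
        rw [hk] at e2
        exact_mod_cast e2
      have hpos : (0 : ℝ) < 1 + ((Y ∩ W).card : ℝ) := by positivity
      have hc' : ((W.filter (fun w => w ∉ Y)).card : ℝ) = (k : ℝ) + 1 - ((Y ∩ W).card : ℝ) := by
        linarith
      rw [hc']
      field_simp
      push_cast
      ring
    -- the terms of the second sum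
    have hterm : ∀ w ∈ W, p * (((k : ℝ) + 1) * ∑ Y ∈ 𝒴.filter (fun Y => w ∉ Y),
        s Y / (1 + ((Y ∩ W).card : ℝ))) ≤ (1 - p) * hh p C U.card := by
      intro w hw
      have hwU := hW hw
      have hcU : (U.erase w).card + 1 = U.card := Finset.card_erase_add_one hwU
      have := ih (U.erase w) (W.erase w) (𝒴.filter (fun Y => w ∉ Y))
        (Finset.erase_subset_erase w hW) (by rw [Finset.card_erase_of_mem hw, hk]; rfl)
        (by
          intro Y hY
          rw [Finset.mem_filter] at hY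
          exact Finset.subset_erase.mpr ⟨hU Y hY.1, hY.2⟩)
        (by
          intro Y hY Z hZ hYZ
          rw [Finset.mem_filter] at hY hZ
          exact hanti Y hY.1 Z hZ.1 hYZ)
        (by
          intro h
          rw [Finset.mem_filter] at h
          exact hemp h.1)
      rw [hcU] at this
      have heq : ∑ Y ∈ 𝒴.filter (fun Y => w ∉ Y), s Y / (1 + ((Y ∩ W).card : ℝ))
          = (1 - p) * ∑ Y ∈ 𝒴.filter (fun Y => w ∉ Y),
            p ^ Y.card * (1 - p) ^ ((U.erase w).card - Y.card) /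
              (1 + ((Y ∩ W.erase w).card : ℝ)) := by
        rw [Finset.mul_sum]
        refine Finset.sum_congr rfl (fun Y hY => ?_)
        rw [Finset.mem_filter] at hY
        have hle : Y.card ≤ (U.erase w).card :=
          Finset.card_le_card (Finset.subset_erase.mpr ⟨hU Y hY.1, hY.2⟩)
        have e1 : U.card - Y.card = ((U.erase w).card - Y.card) + 1 := by omega
        have e2 : Y ∩ W.erase w = Y ∩ W := by
          ext a
          simp only [Finset.mem_inter, Finset.mem_erase]
          constructor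
          · rintro ⟨h1, _, h2⟩
            exact ⟨h1, h2⟩
          · rintro ⟨h1, h2⟩
            refine ⟨h1, ?_, h2⟩
            rintro rfl
            exact hY.2 h1
        simp only [hs]
        rw [e1, e2]
        ring
      rw [heq]
      have h1p : 0 ≤ 1 - p := by linarith
      calc p * (((k : ℝ) + 1) * ((1 - p) * ∑ Y ∈ 𝒴.filter (fun Y => w ∉ Y),
            p ^ Y.card * (1 - p) ^ ((U.erase w).card - Y.card) /
              (1 + ((Y ∩ W.erase w).card : ℝ))))
          = (1 - p) * (p * (((k : ℝ) + 1) * ∑ Y ∈ 𝒴.filter (fun Y => w ∉ Y),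
            p ^ Y.card * (1 - p) ^ ((U.erase w).card - Y.card) /
              (1 + ((Y ∩ W.erase w).card : ℝ)))) := by ring
        _ ≤ (1 - p) * hh p C U.card := mul_le_mul_of_nonneg_left this h1p
    have hsum : p * ∑ w ∈ W, ∑ Y ∈ 𝒴.filter (fun Y => w ∉ Y), s Y / (1 + ((Y ∩ W).card : ℝ))
        ≤ (1 - p) * hh p C U.card := by
      have hk1 : (0 : ℝ) < (k : ℝ) + 1 := by positivity
      have : ((k : ℝ) + 1) * (p * ∑ w ∈ W, ∑ Y ∈ 𝒴.filter (fun Y => w ∉ Y),
          s Y / (1 + ((Y ∩ W).card : ℝ))) ≤ ((k : ℝ) + 1) * ((1 - p) * hh p C U.card) := by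
        calc ((k : ℝ) + 1) * (p * ∑ w ∈ W, ∑ Y ∈ 𝒴.filter (fun Y => w ∉ Y),
            s Y / (1 + ((Y ∩ W).card : ℝ)))
            = ∑ w ∈ W, p * (((k : ℝ) + 1) * ∑ Y ∈ 𝒴.filter (fun Y => w ∉ Y),
                s Y / (1 + ((Y ∩ W).card : ℝ))) := by
              rw [Finset.mul_sum, Finset.mul_sum]
              refine Finset.sum_congr rfl (fun w _ => ?_)
              ring
          _ ≤ ∑ w ∈ W, (1 - p) * hh p C U.card := Finset.sum_le_sum hterm
          _ = ((k : ℝ) + 1) * ((1 - p) * hh p C U.card) := by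
              rw [Finset.sum_const, hk, nsmul_eq_mul]
              push_cast
              ring
      exact le_of_mul_le_mul_left this hk1
    rw [hid, hh, mul_add]
    have h4 := mul_le_mul_of_nonneg_left h1 hp0.le
    linarith

/-! ### Exposing the irrelevant elements -/

lemma exposure {α : Type} [DecidableEq α] {p : ℝ} (hp0 : 0 < p) (hp1 : p < 1) (C : ℝ)
    (hC : ∀ m, bn p m 2 ≤ C) (n : ℕ) :
    ∀ (U W : Finset α) (φ : Finset α → ℕ) (t : ℕ), U.card = n → W ⊆ U →
      (∀ R R', R ⊆ R' → φ R ≤ φ R') →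
      (∀ R R' x, R ⊆ R' → x ∉ R' → φ (insert x R) + φ R' ≤ φ R + φ (insert x R')) →
      φ ∅ < t → (∀ w ∈ W, φ ∅ < φ {w}) →
      p * (((W.card : ℝ) + 1) * ∑ R ∈ U.powerset.filter (fun R => φ R = t),
        p ^ R.card * (1 - p) ^ (U.card - R.card) / (1 + ((R ∩ W).card : ℝ))) ≤ C := by
  induction n with
  | zero =>
    intro U W φ t hU hW hmono hsup ht hWp
    rw [Finset.card_eq_zero] at hU
    subst hU
    have : (∅ : Finset α).powerset.filter (fun R => φ R = t) = ∅ := by
      rw [Finset.filter_eq_empty_iff]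
      intro R hR
      rw [Finset.mem_powerset, Finset.subset_empty] at hR
      subst hR
      omega
    rw [this]
    have := hC 0
    simpa [bn] using this
  | succ n ih =>
    intro U W φ t hU hW hmono hsup ht hWp
    by_cases hx : ∃ x ∈ U, φ {x} = φ ∅
    · obtain ⟨x, hxU, hxφ⟩ := hx
      have hxW : x ∉ W := by
        intro h
        have := hWp x h
        omega
      set V := U.erase x with hV
      have hcV : V.card + 1 = U.card := Finset.card_erase_add_one hxU
      have hins : insert x V = U := Finset.insert_erase hxU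
      have hxV : x ∉ V := Finset.notMem_erase x U
      have hWV : W ⊆ V := Finset.subset_erase.mpr ⟨hW, hxW⟩
      have i0 := ih V W φ t (by omega) hWV hmono hsup ht hWp
      have i1 := ih V W (fun R => φ (insert x R)) t (by omega) hWV
        (fun R R' h => hmono _ _ (Finset.insert_subset_insert x h))
        (by
          intro R R' y hRR' hy
          by_cases hyx : y = x
          · subst hyx
            simp
          · have := hsup (insert x R) (insert x R') y (Finset.insert_subset_insert x hRR')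
              (by simp [hyx, hy])
            rw [Finset.insert_comm y x, Finset.insert_comm y x] at this
            exact this)
        (by
          rw [insert_empty_eq, hxφ]
          exact ht)
        (by
          intro w hw
          rw [insert_empty_eq, hxφ]
          exact lt_of_lt_of_le (hWp w hw) (hmono _ _ (Finset.subset_insert x {w})))
      have hsplit : ∑ R ∈ U.powerset.filter (fun R => φ R = t),
          p ^ R.card * (1 - p) ^ (U.card - R.card) / (1 + ((R ∩ W).card : ℝ))
          = (1 - p) * (∑ R ∈ V.powerset.filter (fun R => φ R = t),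
            p ^ R.card * (1 - p) ^ (V.card - R.card) / (1 + ((R ∩ W).card : ℝ)))
          + p * (∑ R ∈ V.powerset.filter (fun R => φ (insert x R) = t),
            p ^ R.card * (1 - p) ^ (V.card - R.card) / (1 + ((R ∩ W).card : ℝ))) := by
        rw [Finset.sum_filter, ← hins, Finset.sum_powerset_insert hxV, hins,
          Finset.sum_filter, Finset.sum_filter, Finset.mul_sum, Finset.mul_sum]
        congr 1
        · refine Finset.sum_congr rfl (fun R hR => ?_)
          rw [Finset.mem_powerset] at hR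
          have hle := Finset.card_le_card hR
          split_ifs with h
          · have e1 : U.card - R.card = (V.card - R.card) + 1 := by omega
            rw [e1]
            ring
          · simp
        · refine Finset.sum_congr rfl (fun R hR => ?_)
          rw [Finset.mem_powerset] at hR
          have hxR : x ∉ R := fun h => hxV (hR h)
          split_ifs with h
          · have e1 : (insert x R).card = R.card + 1 := Finset.card_insert_of_notMem hxR
            have e2 : U.card - (R.card + 1) = V.card - R.card := by omega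
            have e3 : insert x R ∩ W = R ∩ W := Finset.insert_inter_of_notMem hxW
            rw [e1, e2, e3]
            ring
          · simp
      rw [hsplit]
      have h1p : 0 ≤ 1 - p := by linarith
      have j0 := mul_le_mul_of_nonneg_left i0 h1p
      have j1 := mul_le_mul_of_nonneg_left i1 hp0.le
      calc p * (((W.card : ℝ) + 1) * ((1 - p) * (∑ R ∈ V.powerset.filter (fun R => φ R = t),
            p ^ R.card * (1 - p) ^ (V.card - R.card) / (1 + ((R ∩ W).card : ℝ)))
          + p * (∑ R ∈ V.powerset.filter (fun R => φ (insert x R) = t),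
            p ^ R.card * (1 - p) ^ (V.card - R.card) / (1 + ((R ∩ W).card : ℝ)))))
          = (1 - p) * (p * (((W.card : ℝ) + 1) * ∑ R ∈ V.powerset.filter (fun R => φ R = t),
            p ^ R.card * (1 - p) ^ (V.card - R.card) / (1 + ((R ∩ W).card : ℝ))))
          + p * (p * (((W.card : ℝ) + 1) *
            ∑ R ∈ V.powerset.filter (fun R => φ (insert x R) = t),
            p ^ R.card * (1 - p) ^ (V.card - R.card) / (1 + ((R ∩ W).card : ℝ)))) := by ring
        _ ≤ (1 - p) * C + p * C := add_le_add j0 j1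
        _ = C := by ring
    · push Not at hx
      have hpos : ∀ x ∈ U, φ ∅ < φ {x} := by
        intro x hxU
        have h1 := hx x hxU
        have h2 := hmono ∅ {x} (Finset.empty_subset _)
        omega
      have hanti : ∀ Y ∈ U.powerset.filter (fun R => φ R = t),
          ∀ Z ∈ U.powerset.filter (fun R => φ R = t), Y ⊆ Z → Y = Z := by
        intro Y hY Z hZ hYZ
        rw [Finset.mem_filter, Finset.mem_powerset] at hY hZ
        by_contra hne
        obtain ⟨z, hzZ, hzY⟩ : ∃ z ∈ Z, z ∉ Y := by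
          by_contra hcon
          push Not at hcon
          exact hne (Finset.Subset.antisymm hYZ hcon)
        have h1 := hsup ∅ Y z (Finset.empty_subset _) hzY
        rw [insert_empty_eq] at h1
        have h2 := hpos z (hZ.1 hzZ)
        have h3 := hmono (insert z Y) Z (Finset.insert_subset hzZ hYZ)
        omega
      have h := antichain_bound hp0 hp1 C hC W.card U W
        (U.powerset.filter (fun R => φ R = t)) hW rfl
        (fun Y hY => by
          rw [Finset.mem_filter, Finset.mem_powerset] at hY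
          exact hY.1)
        hanti
        (by
          intro hmem
          rw [Finset.mem_filter] at hmem
          omega)
      exact h.trans (hh_le hp0 hp1 C hC _).1

/-! ### Counting functions -/

lemma cnt_mono {α : Type} [DecidableEq α] (𝒜 : Finset (Finset α)) (R R' : Finset α)
    (h : R ⊆ R') : cnt 𝒜 R ≤ cnt 𝒜 R' := by
  unfold cnt
  apply Finset.card_le_card
  intro A hA
  rw [Finset.mem_filter] at hA ⊢
  exact ⟨hA.1, hA.2.trans h⟩

lemma cnt_insert {α : Type} [DecidableEq α] (𝒜 : Finset (Finset α)) (R : Finset α) (x : α) :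
    cnt 𝒜 (insert x R) = cnt 𝒜 R + (𝒜.filter (fun A => A ⊆ insert x R ∧ ¬ A ⊆ R)).card := by
  unfold cnt
  rw [← Finset.card_union_of_disjoint]
  · congr 1
    ext A
    simp only [Finset.mem_filter, Finset.mem_union]
    constructor
    · rintro ⟨h1, h2⟩
      by_cases h : A ⊆ R
      · exact Or.inl ⟨h1, h⟩
      · exact Or.inr ⟨h1, h2, h⟩
    · rintro (⟨h1, h2⟩ | ⟨h1, h2, _⟩)
      · exact ⟨h1, h2.trans (Finset.subset_insert x R)⟩
      · exact ⟨h1, h2⟩
  · rw [Finset.disjoint_left]
    intro A h1 h2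
    rw [Finset.mem_filter] at h1 h2
    exact h2.2.2 h1.2

lemma cnt_sup {α : Type} [DecidableEq α] (𝒜 : Finset (Finset α)) (R R' : Finset α) (x : α)
    (h : R ⊆ R') (hx : x ∉ R') :
    cnt 𝒜 (insert x R) + cnt 𝒜 R' ≤ cnt 𝒜 R + cnt 𝒜 (insert x R') := by
  rw [cnt_insert, cnt_insert]
  have : (𝒜.filter (fun A => A ⊆ insert x R ∧ ¬ A ⊆ R)).card
      ≤ (𝒜.filter (fun A => A ⊆ insert x R' ∧ ¬ A ⊆ R')).card := by
    apply Finset.card_le_card
    intro A hA
    rw [Finset.mem_filter] at hA ⊢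
    refine ⟨hA.1, hA.2.1.trans (Finset.insert_subset_insert x h), ?_⟩
    intro hAR'
    apply hA.2.2
    intro a ha
    have h1 := hA.2.1 ha
    rw [Finset.mem_insert] at h1
    rcases h1 with h1 | h1
    · subst h1
      exact absurd (hAR' ha) hx
    · exact h1
  omega

/-- A family has a clique transversal if some set `Q` meets all its members and any two distinct
elements `x`, `y` of `Q` satisfy `{x, y} ∈ 𝒜`, or `{x} ∈ 𝒜` and `{y} ∈ 𝒜`. -/
def HasCliqueTransversal {α : Type} [DecidableEq α] (𝒜 : Finset (Finset α)) : Prop :=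
  ∃ Q : Finset α, (∀ A ∈ 𝒜, (A ∩ Q).Nonempty) ∧
    ∀ x ∈ Q, ∀ y ∈ Q, x ≠ y → ({x, y} ∈ 𝒜 ∨ ({x} ∈ 𝒜 ∧ {y} ∈ 𝒜))

lemma main_bound {α : Type} [DecidableEq α] {p : ℝ} (hp0 : 0 < p) (hp1 : p < 1) (C : ℝ)
    (hC : ∀ m, bn p m 2 ≤ C) (B : Finset α) (𝒜 : Finset (Finset α)) (hB : ∀ A ∈ 𝒜, A ⊆ B)
    (hQ : HasCliqueTransversal 𝒜) (l : ℕ) (hl : 2 ≤ l) : prob B 𝒜 l p ≤ C := by
  have hC0 : 0 ≤ C := by
    have := hC 0
    simpa [bn] using this
  obtain ⟨Q', hQ1', hQ2'⟩ := hQ
  set Q := Q' ∩ B with hQdef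
  have hQB : Q ⊆ B := Finset.inter_subset_right
  have hQ1 : ∀ A ∈ 𝒜, (A ∩ Q).Nonempty := by
    intro A hA
    obtain ⟨a, ha⟩ := hQ1' A hA
    rw [Finset.mem_inter] at ha
    exact ⟨a, Finset.mem_inter.mpr ⟨ha.1, Finset.mem_inter.mpr ⟨ha.2, hB A hA ha.1⟩⟩⟩
  have hQ2 : ∀ x ∈ Q, ∀ y ∈ Q, x ≠ y → ({x, y} ∈ 𝒜 ∨ ({x} ∈ 𝒜 ∧ {y} ∈ 𝒜)) := by
    intro x hx y hy
    exact hQ2' x (Finset.mem_inter.mp hx).1 y (Finset.mem_inter.mp hy).1
  -- each set in the event meets `Q`
  have hmeet : ∀ S, cnt 𝒜 S = l → (S ∩ Q).Nonempty := by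
    intro S hS
    have : (𝒜.filter (fun A => A ⊆ S)).Nonempty := by
      rw [← Finset.card_pos]
      unfold cnt at hS
      omega
    obtain ⟨A, hA⟩ := this
    rw [Finset.mem_filter] at hA
    obtain ⟨a, ha⟩ := hQ1 A hA.1
    rw [Finset.mem_inter] at ha
    exact ⟨a, Finset.mem_inter.mpr ⟨hA.2 ha.1, ha.2⟩⟩
  -- double counting
  have hdc : prob B 𝒜 l p = ∑ y ∈ Q, ∑ S ∈ (B.powerset.filter (fun S => cnt 𝒜 S = l)).filter
      (fun S => y ∈ S), p ^ S.card * (1 - p) ^ (B.card - S.card) / ((S ∩ Q).card : ℝ) := by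
    unfold prob
    have : ∀ y ∈ Q, (∑ S ∈ (B.powerset.filter (fun S => cnt 𝒜 S = l)).filter
        (fun S => y ∈ S), p ^ S.card * (1 - p) ^ (B.card - S.card) / ((S ∩ Q).card : ℝ))
        = ∑ S ∈ B.powerset.filter (fun S => cnt 𝒜 S = l), if y ∈ S then
          p ^ S.card * (1 - p) ^ (B.card - S.card) / ((S ∩ Q).card : ℝ) else 0 := by
      intro y _
      rw [Finset.sum_filter]
    rw [Finset.sum_congr rfl this]
    rw [Finset.sum_comm (s := Q)]
    refine Finset.sum_congr rfl (fun S hS => ?_)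
    rw [Finset.mem_filter] at hS
    rw [← Finset.sum_filter, Finset.sum_const, nsmul_eq_mul]
    have e : Q.filter (fun y => y ∈ S) = S ∩ Q := by
      ext a
      simp [Finset.mem_inter, and_comm]
    rw [e]
    have hpos : (0 : ℝ) < ((S ∩ Q).card : ℝ) := by
      exact_mod_cast Finset.card_pos.mpr (hmeet S hS.2)
    field_simp
  rw [hdc]
  rcases Q.eq_empty_or_nonempty with hQe | hQne
  · rw [hQe]
    simpa using hC0
  have hQpos : (0 : ℝ) < (Q.card : ℝ) := by exact_mod_cast Finset.card_pos.mpr hQne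
  have hterm : ∀ y ∈ Q, ∑ S ∈ (B.powerset.filter (fun S => cnt 𝒜 S = l)).filter
      (fun S => y ∈ S), p ^ S.card * (1 - p) ^ (B.card - S.card) / ((S ∩ Q).card : ℝ)
      ≤ C / (Q.card : ℝ) := by
    intro y hy
    have hyB := hQB hy
    set V := B.erase y with hV
    have hyV : y ∉ V := Finset.notMem_erase y B
    have hins : insert y V = B := Finset.insert_erase hyB
    have hcV : V.card + 1 = B.card := Finset.card_erase_add_one hyB
    set W := Q.erase y with hW
    have hcW : W.card + 1 = Q.card := Finset.card_erase_add_one hy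
    have hWV : W ⊆ V := Finset.erase_subset_erase y hQB
    have hbase : cnt 𝒜 (insert y ∅) ≤ 1 := by
      unfold cnt
      rw [Finset.card_le_one]
      intro A hA A' hA'
      rw [Finset.mem_filter] at hA hA'
      have aux : ∀ D ∈ 𝒜, D ⊆ insert y ∅ → D = {y} := by
        intro D hD hDy
        rw [insert_empty_eq, Finset.subset_singleton_iff] at hDy
        rcases hDy with h | h
        · obtain ⟨a, ha⟩ := hQ1 D hD
          rw [h] at ha
          simp at ha
        · exact h
      rw [aux A hA.1 hA.2, aux A' hA'.1 hA'.2]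
    have hexp := exposure hp0 hp1 C hC V.card V W (fun R => cnt 𝒜 (insert y R)) l rfl hWV
      (fun R R' h => cnt_mono 𝒜 _ _ (Finset.insert_subset_insert y h))
      (by
        intro R R' x hRR' hx
        by_cases hxy : x = y
        · subst hxy
          simp
        · have := cnt_sup 𝒜 (insert y R) (insert y R') x (Finset.insert_subset_insert y hRR')
            (by simp [hxy, hx])
          rw [Finset.insert_comm x y, Finset.insert_comm x y] at this
          exact this)
      (by
        omega)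
      (by
        intro w hw
        rw [hW, Finset.mem_erase] at hw
        unfold cnt
        apply Finset.card_lt_card
        rw [Finset.ssubset_iff_of_subset]
        · rcases hQ2 y hy w hw.2 (Ne.symm hw.1) with h | h
          · refine ⟨{y, w}, ?_, ?_⟩
            · rw [Finset.mem_filter]
              exact ⟨h, Finset.Subset.refl _⟩
            · rw [Finset.mem_filter]
              rintro ⟨_, h2⟩
              have : w ∈ (insert y ∅ : Finset α) := h2 (by simp)
              rw [insert_empty_eq, Finset.mem_singleton] at this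
              exact hw.1 this
          · refine ⟨{w}, ?_, ?_⟩
            · rw [Finset.mem_filter]
              refine ⟨h.2, ?_⟩
              intro a ha
              rw [Finset.mem_singleton] at ha
              subst ha
              simp
            · rw [Finset.mem_filter]
              rintro ⟨_, h2⟩
              have : w ∈ (insert y ∅ : Finset α) := h2 (by simp)
              rw [insert_empty_eq, Finset.mem_singleton] at this
              exact hw.1 this
        · intro A hA
          rw [Finset.mem_filter] at hA ⊢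
          exact ⟨hA.1, hA.2.trans (Finset.insert_subset_insert y (Finset.empty_subset _))⟩)
    have hconv : ∑ S ∈ (B.powerset.filter (fun S => cnt 𝒜 S = l)).filter
        (fun S => y ∈ S), p ^ S.card * (1 - p) ^ (B.card - S.card) / ((S ∩ Q).card : ℝ)
        = p * ∑ R ∈ V.powerset.filter (fun R => cnt 𝒜 (insert y R) = l),
          p ^ R.card * (1 - p) ^ (V.card - R.card) / (1 + ((R ∩ W).card : ℝ)) := by
      rw [Finset.sum_filter, Finset.sum_filter, ← hins, Finset.sum_powerset_insert hyV, hins,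
        Finset.sum_filter, Finset.mul_sum]
      have hz : ∑ R ∈ V.powerset, (if cnt 𝒜 R = l then (if y ∈ R then
          p ^ R.card * (1 - p) ^ (B.card - R.card) / ((R ∩ Q).card : ℝ) else 0) else 0) = 0 := by
        apply Finset.sum_eq_zero
        intro R hR
        rw [Finset.mem_powerset] at hR
        have hyR : y ∉ R := fun h => hyV (hR h)
        simp [hyR]
      rw [hz, zero_add]
      refine Finset.sum_congr rfl (fun R hR => ?_)
      rw [Finset.mem_powerset] at hR
      have hyR : y ∉ R := fun h => hyV (hR h)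
      have e1 : (insert y R).card = R.card + 1 := Finset.card_insert_of_notMem hyR
      have e2 : B.card - (R.card + 1) = V.card - R.card := by omega
      have e3 : ((insert y R ∩ Q).card : ℝ) = 1 + ((R ∩ W).card : ℝ) := by
        have : insert y R ∩ Q = insert y (R ∩ W) := by
          ext a
          simp only [Finset.mem_inter, Finset.mem_insert, hW, Finset.mem_erase]
          constructor
          · rintro ⟨h1 | h1, h2⟩
            · exact Or.inl h1
            · by_cases hay : a = y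
              · exact Or.inl hay
              · exact Or.inr ⟨h1, hay, h2⟩
          · rintro (h1 | ⟨h1, _, h3⟩)
            · subst h1
              exact ⟨Or.inl rfl, hy⟩
            · exact ⟨Or.inr h1, h3⟩
        rw [this, Finset.card_insert_of_notMem]
        · push_cast
          ring
        · intro h
          exact hyR (Finset.mem_inter.mp h).1
      simp only [Finset.mem_insert_self, if_true]
      split_ifs with h
      · rw [e1, e2, e3]
        ring
      · simp
    rw [hconv, le_div_iff₀ hQpos]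
    have hWQ : ((W.card : ℝ) + 1) = (Q.card : ℝ) := by exact_mod_cast hcW
    rw [hWQ] at hexp
    calc p * (∑ R ∈ V.powerset.filter (fun R => cnt 𝒜 (insert y R) = l),
          p ^ R.card * (1 - p) ^ (V.card - R.card) / (1 + ((R ∩ W).card : ℝ))) * (Q.card : ℝ)
        = p * ((Q.card : ℝ) * ∑ R ∈ V.powerset.filter (fun R => cnt 𝒜 (insert y R) = l),
          p ^ R.card * (1 - p) ^ (V.card - R.card) / (1 + ((R ∩ W).card : ℝ))) := by ring
      _ ≤ C := hexp
  refine (Finset.sum_le_sum hterm).trans (le_of_eq ?_)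
  rw [Finset.sum_const, nsmul_eq_mul]
  field_simp

/-! ### The size of the bound -/

lemma binTwo_le {p : ℝ} (hp0 : 0 < p) (hp1 : p < 1) (m : ℕ) :
    binTwo m p ≤ 2 * Real.exp (2 * p - 2) := by
  unfold binTwo
  rcases Nat.lt_or_ge m 2 with h | h
  · rw [Nat.choose_eq_zero_of_lt h]
    have := (Real.exp_pos (2 * p - 2)).le
    simp only [Nat.cast_zero, zero_mul]
    positivity
  · have h1p : (0 : ℝ) ≤ 1 - p := by linarith
    have hch : ((m.choose 2 : ℕ) : ℝ) ≤ (m : ℝ) ^ 2 / 2 := by
      rw [Nat.cast_choose_two]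
      have : (0 : ℝ) ≤ (m : ℝ) := by positivity
      nlinarith
    have hpow : (1 - p) ^ (m - 2) ≤ Real.exp (-p * ((m : ℝ) - 2)) := by
      have h1 : 1 - p ≤ Real.exp (-p) := by
        have := Real.add_one_le_exp (-p)
        linarith
      calc (1 - p) ^ (m - 2) ≤ (Real.exp (-p)) ^ (m - 2) := pow_le_pow_left₀ h1p h1 _
        _ = Real.exp (-p * ((m : ℝ) - 2)) := by
          rw [← Real.exp_nat_mul, Nat.cast_sub h]
          congr 1
          push_cast
          ring
    have hx : ((m : ℝ) * p) ^ 2 / 4 ≤ Real.exp ((m : ℝ) * p - 2) := by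
      have h1 : (m : ℝ) * p / 2 ≤ Real.exp ((m : ℝ) * p / 2 - 1) := by
        have := Real.add_one_le_exp ((m : ℝ) * p / 2 - 1)
        linarith
      have h0 : 0 ≤ (m : ℝ) * p / 2 := by positivity
      have h2 := mul_le_mul h1 h1 h0 (Real.exp_pos _).le
      rw [← Real.exp_add] at h2
      have e : (m : ℝ) * p / 2 - 1 + ((m : ℝ) * p / 2 - 1) = (m : ℝ) * p - 2 := by ring
      rw [e] at h2
      nlinarith [h2]
    calc ((m.choose 2 : ℕ) : ℝ) * p ^ 2 * (1 - p) ^ (m - 2)
        ≤ ((m : ℝ) ^ 2 / 2 * p ^ 2) * Real.exp (-p * ((m : ℝ) - 2)) := by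
          apply mul_le_mul _ hpow (by positivity) (by positivity)
          exact mul_le_mul_of_nonneg_right hch (by positivity)
      _ = 2 * ((((m : ℝ) * p) ^ 2 / 4) * Real.exp (-p * ((m : ℝ) - 2))) := by ring
      _ ≤ 2 * (Real.exp ((m : ℝ) * p - 2) * Real.exp (-p * ((m : ℝ) - 2))) := by
          have := mul_le_mul_of_nonneg_right hx (Real.exp_pos (-p * ((m : ℝ) - 2))).le
          linarith
      _ = 2 * Real.exp (2 * p - 2) := by
          rw [← Real.exp_add]
          congr 2
          ring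

lemma binTwo_bdd {p : ℝ} (hp0 : 0 < p) (hp1 : p < 1) :
    BddAbove (Set.range (fun m => binTwo m p)) := by
  refine ⟨2 * Real.exp (2 * p - 2), ?_⟩
  rintro x ⟨m, rfl⟩
  exact binTwo_le hp0 hp1 m

lemma bound_tendsto (ε : ℝ) (hε : 0 < ε) : ∃ δ : ℝ, 0 < δ ∧ δ ≤ 1 ∧ ∀ p : ℝ, 0 < p → p < δ →
    2 * Real.exp (2 * p - 2) ≤ 2 / Real.exp 1 ^ 2 + ε := by
  have hcont : Filter.Tendsto (fun p : ℝ => 2 * Real.exp (2 * p - 2)) (nhds 0)
      (nhds (2 * Real.exp (2 * 0 - 2))) := by
    apply Continuous.tendsto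
    fun_prop
  have hev := hcont.eventually (gt_mem_nhds (show 2 * Real.exp (2 * 0 - 2) <
    2 / Real.exp 1 ^ 2 + ε by
      have : 2 * Real.exp (2 * 0 - 2) = 2 / Real.exp 1 ^ 2 := by
        rw [← Real.exp_nat_mul, div_eq_mul_inv, ← Real.exp_neg]
        norm_num
      rw [this]
      linarith))
  rw [Metric.eventually_nhds_iff] at hev
  obtain ⟨d, hd, hdp⟩ := hev
  refine ⟨min d 1, lt_min hd one_pos, min_le_right _ _, ?_⟩
  intro p hp0 hpd
  have : dist p 0 < d := by
    rw [Real.dist_eq, sub_zero, abs_of_pos hp0]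
    exact lt_of_lt_of_le hpd (min_le_left _ _)
  exact (hdp this).le

/-! ### The bound is attained for `l = 2` -/

lemma cnt_singletons (m : ℕ) (S : Finset ℕ) (hS : S ⊆ Finset.range m) :
    cnt ((Finset.range m).image (fun x => ({x} : Finset ℕ))) S = S.card := by
  unfold cnt
  have : ((Finset.range m).image (fun x => ({x} : Finset ℕ))).filter (fun A => A ⊆ S)
      = S.image (fun x => ({x} : Finset ℕ)) := by
    ext A
    simp only [Finset.mem_filter, Finset.mem_image]
    constructor
    · rintro ⟨⟨x, _, rfl⟩, h⟩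
      exact ⟨x, Finset.singleton_subset_iff.mp h, rfl⟩
    · rintro ⟨x, hx, rfl⟩
      exact ⟨⟨x, hS hx, rfl⟩, Finset.singleton_subset_iff.mpr hx⟩
  rw [this, Finset.card_image_of_injective _ Finset.singleton_injective]

lemma prob_singletons (m : ℕ) (p : ℝ) :
    prob (Finset.range m) ((Finset.range m).image (fun x => ({x} : Finset ℕ))) 2 p
      = binTwo m p := by
  unfold prob
  have : (Finset.range m).powerset.filter
      (fun S => cnt ((Finset.range m).image (fun x => ({x} : Finset ℕ))) S = 2)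
      = (Finset.range m).powersetCard 2 := by
    ext S
    rw [Finset.mem_filter, Finset.mem_powerset, Finset.mem_powersetCard]
    constructor
    · rintro ⟨h1, h2⟩
      rw [cnt_singletons m S h1] at h2
      exact ⟨h1, h2⟩
    · rintro ⟨h1, h2⟩
      refine ⟨h1, ?_⟩
      rw [cnt_singletons m S h1]
      exact h2
  rw [this]
  have h2 : ∀ S ∈ (Finset.range m).powersetCard 2,
      p ^ S.card * (1 - p) ^ ((Finset.range m).card - S.card) = p ^ 2 * (1 - p) ^ (m - 2) := by
    intro S hS
    rw [Finset.mem_powersetCard] at hS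
    rw [hS.2, Finset.card_range]
  rw [Finset.sum_congr rfl h2, Finset.sum_const, Finset.card_powersetCard, Finset.card_range,
    nsmul_eq_mul, binTwo, mul_assoc]

/-- **Main result.** Let `𝒜` be a family of subsets of a finite set `B` that has a clique
transversal; for example a family all of whose inclusion-minimal members are singletons. Then for
every `l ≥ 2` and `0 < p < 1` the probability that the `p`-random subset of `B` contains exactly
`l` members of `𝒜` is at most the supremum over `m` of the probability that a binomial `(m, p)`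
variable equals `2`. This supremum is at most `2 exp (2 p - 2)`, hence within `ε` of `2 / e ^ 2`
for small `p`, and it is the exact supremum for `l = 2`. -/
theorem result :
    (∀ (l : ℕ), 2 ≤ l → ∀ p : ℝ, 0 < p → p < 1 →
      ∀ (α : Type) [DecidableEq α] (B : Finset α) (𝒜 : Finset (Finset α)),
        (∀ A ∈ 𝒜, A ⊆ B) → HasCliqueTransversal 𝒜 →
          prob B 𝒜 l p ≤ ⨆ m : ℕ, binTwo m p) ∧
    (∀ (α : Type) [DecidableEq α] (𝒜 : Finset (Finset α)),
      (∀ A ∈ 𝒜, ∃ x ∈ A, {x} ∈ 𝒜) → HasCliqueTransversal 𝒜) ∧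
    (∀ p : ℝ, 0 < p → p < 1 → (⨆ m : ℕ, binTwo m p) ≤ 2 * Real.exp (2 * p - 2)) ∧
    (∀ ε : ℝ, 0 < ε → ∃ δ : ℝ, 0 < δ ∧ δ ≤ 1 ∧ ∀ l : ℕ, 2 ≤ l → ∀ p : ℝ, 0 < p → p < δ →
      ∀ (α : Type) [DecidableEq α] (B : Finset α) (𝒜 : Finset (Finset α)),
        (∀ A ∈ 𝒜, A ⊆ B) → HasCliqueTransversal 𝒜 →
          prob B 𝒜 l p ≤ 2 / Real.exp 1 ^ 2 + ε) ∧
    (∀ (p : ℝ) (m : ℕ), ∃ (B : Finset ℕ) (𝒜 : Finset (Finset ℕ)),
      (∀ A ∈ 𝒜, A ⊆ B) ∧ HasCliqueTransversal 𝒜 ∧ prob B 𝒜 2 p = binTwo m p) := by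
  have hsing : ∀ (α : Type) [DecidableEq α] (𝒜 : Finset (Finset α)),
      (∀ A ∈ 𝒜, ∃ x ∈ A, {x} ∈ 𝒜) → HasCliqueTransversal 𝒜 := by
    intro α _ 𝒜 h
    refine ⟨(𝒜.biUnion id).filter (fun x => {x} ∈ 𝒜), ?_, ?_⟩
    · intro A hA
      obtain ⟨x, hxA, hx⟩ := h A hA
      refine ⟨x, Finset.mem_inter.mpr ⟨hxA, ?_⟩⟩
      rw [Finset.mem_filter, Finset.mem_biUnion]
      exact ⟨⟨A, hA, hxA⟩, hx⟩
    · intro x hx y hy _
      rw [Finset.mem_filter] at hx hy
      exact Or.inr ⟨hx.2, hy.2⟩
  refine ⟨?_, hsing, ?_, ?_, ?_⟩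
  · intro l hl p hp0 hp1 α _ B 𝒜 hB hQ
    refine main_bound hp0 hp1 _ ?_ B 𝒜 hB hQ l hl
    intro m
    exact le_ciSup (binTwo_bdd hp0 hp1) m
  · intro p hp0 hp1
    exact ciSup_le (fun m => binTwo_le hp0 hp1 m)
  · intro ε hε
    obtain ⟨δ, hδ, hδ1, h⟩ := bound_tendsto ε hε
    refine ⟨δ, hδ, hδ1, ?_⟩
    intro l hl p hp0 hpδ α _ B 𝒜 hB hQ
    have hp1 : p < 1 := lt_of_lt_of_le hpδ hδ1
    exact (main_bound hp0 hp1 _ (fun m => binTwo_le hp0 hp1 m) B 𝒜 hB hQ l hl).trans (h p hp0 hpδ)
  · intro p m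
    refine ⟨Finset.range m, (Finset.range m).image (fun x => ({x} : Finset ℕ)), ?_, ?_,
      prob_singletons m p⟩
    · intro A hA
      rw [Finset.mem_image] at hA
      obtain ⟨x, hx, rfl⟩ := hA
      exact Finset.singleton_subset_iff.mpr hx
    · apply hsing
      intro A hA
      rw [Finset.mem_image] at hA
      obtain ⟨x, hx, rfl⟩ := hA
      exact ⟨x, Finset.mem_singleton_self x, Finset.mem_image_of_mem _ hx⟩

end Pool.Agent.Results.MP_eb6a62_co.CliqueTransversal
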